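import Mathlib
import Pool.Agent.V1128.Basic.GolodAll
import Pool.Agent.V1128.Basic.Levitzki
import Pool.Agent.V1128.Basic.Alg

set_option autoImplicit false

universe u v

namespace Pool.Agent.Results.MP_42b5d3_al.GolodExample

open MonoidAlgebra Polynomial Pool.Agent.Helper884.Golod Pool.Agent.V1128.Basic

/-- A ring is noetherian if it is left and right noetherian. -/
def TwoSidedNoetherian (R : Type u) [Ring R] : Prop :=
  IsNoetherianRing R ∧ IsNoetherianRing Rᵐᵒᵖ

/-- A ring is F-noetherian if each finite subset lies in a noetherian subring. -/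
def FNoetherian (R : Type u) [Ring R] : Prop :=
  ∀ s : Set R, s.Finite → ∃ S : Subring R, s ⊆ S ∧ TwoSidedNoetherian S

/-- The basic condition for left modules (in the universe `v`): whenever `M` is a finitely
generated left module and a left module `A` admits an epimorphism and a monomorphism to `M`,
the epimorphism is an isomorphism. -/
def LeftBasic (R : Type u) [Ring R] : Prop :=
  ∀ (M A : Type v) [AddCommGroup M] [Module R M] [AddCommGroup A] [Module R A],
    Module.Finite R M → ∀ f i : A →ₗ[R] M, Function.Surjective f → Function.Injective i →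
      Function.Bijective f

/-- A ring is basic if the basic condition holds for left modules and for right modules
(left modules over the opposite ring). -/
def Basic (R : Type u) [Ring R] : Prop :=
  LeftBasic.{u, v} R ∧ LeftBasic.{u, v} Rᵐᵒᵖ

/-- There is a basic ring that is not F-noetherian. -/
theorem result : ∃ (R : Type) (_ : Ring R), Basic.{0, v} R ∧ ¬ FNoetherian R := by
  classical
  obtain ⟨I, hI, hI0, hInil, hIw⟩ := golod_all ℚ
  let q : T ℚ →ₐ[ℚ] T ℚ ⧸ I := Ideal.Quotient.mkₐ ℚ I
  have hq : Function.Surjective q := Ideal.Quotient.mk_surjective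
  have hq0 : ∀ f, q f = 0 ↔ f ∈ I := fun f => Ideal.Quotient.eq_zero_iff_mem
  let ε : (T ℚ ⧸ I) →ₐ[ℚ] ℚ := Ideal.Quotient.liftₐ I (aug : T ℚ →ₐ[ℚ] ℚ)
    (fun f hf => by rw [aug_apply]; exact hI0 f hf)
  have hε : ∀ f, ε (q f) = aug f := fun f => rfl
  -- matrices over the augmentation ideal are nilpotent
  have hnil : ∀ (n : ℕ) (Y : Matrix (Fin n) (Fin n) (T ℚ ⧸ I)), (∀ a b, ε (Y a b) = 0) →
      ∃ N : ℕ, Y ^ N = 0 := by
    intro n Y hY
    choose M hM using fun a b => hq (Y a b)
    obtain ⟨N, hN⟩ := hInil n (Matrix.of M) (by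
      intro a b
      rw [mem_Ge_one_iff, ← hε]
      show ε (q (M a b)) = 0
      rw [hM]; exact hY a b)
    refine ⟨N, ?_⟩
    have h5 : (q.toRingHom.mapMatrix (Matrix.of M)) = Y := by
      ext a b
      exact hM a b
    rw [← h5, ← map_pow]
    ext a b
    exact (hq0 _).mpr (hN a b)
  have halg : MatAlg ℚ (T ℚ ⧸ I) := by
    intro n X
    obtain ⟨N, hN⟩ := hnil n (aeval X (ε.mapMatrix X).charpoly) (by
      intro a b
      have h1 : ε.mapMatrix (aeval X (ε.mapMatrix X).charpoly) = 0 := by
        rw [← Polynomial.aeval_algHom_apply]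
        exact Matrix.aeval_self_charpoly _
      exact congrFun (congrFun h1 a) b)
    refine ⟨(ε.mapMatrix X).charpoly ^ N, (Matrix.charpoly_monic _).pow N, ?_⟩
    rw [map_pow, hN]
  have hbasic : ∀ (R : Type) [Ring R] [Algebra ℚ R], MatAlg ℚ R → LeftBasic.{0, v} R := by
    intro R _ _ hR M A _ _ _ _ hM f i hf hi
    exact ⟨injective_of_matAlg hR f i hf hi, hf⟩
  refine ⟨T ℚ ⧸ I, inferInstance, ⟨hbasic _ halg, hbasic _ halg.op⟩, ?_⟩
  intro hF
  let X : Fin 2 → T ℚ ⧸ I := fun i => q (single (FreeMonoid.of i) (1 : ℚ))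
  obtain ⟨S, hXS, hSl, hSr⟩ := hF (Set.range X) (Set.finite_range X)
  -- the nil ideal of `S`
  let φ : S →+* ℚ := (ε : (T ℚ ⧸ I) →+* ℚ).comp S.subtype
  let N : Ideal S := RingHom.ker φ
  have hN2 : ∀ a ∈ N, ∀ s, a * s ∈ N := by
    intro a ha s
    rw [RingHom.mem_ker] at ha ⊢
    rw [map_mul, ha, zero_mul]
  have hNnil : ∀ a ∈ N, IsNilpotent a := by
    intro a ha
    rw [RingHom.mem_ker] at ha
    obtain ⟨k, hk⟩ := hnil 1 (Matrix.of fun _ _ => (a : T ℚ ⧸ I)) (fun _ _ => ha)
    refine ⟨k, ?_⟩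
    apply Subtype.ext
    have h1 : ∀ k, (Matrix.of (fun (_ _ : Fin 1) => (a : T ℚ ⧸ I))) ^ k =
        Matrix.of (fun (_ _ : Fin 1) => (a : T ℚ ⧸ I) ^ k) := by
      intro k
      induction k with
      | zero =>
        ext i j
        rw [Subsingleton.elim i j]
        simp
      | succ k ih =>
        rw [pow_succ, ih]
        ext i j
        simp [Matrix.mul_apply, pow_succ]
    have h2 := congrFun (congrFun (h1 k) 0) 0
    rw [hk] at h2
    simpa using h2.symm
  obtain ⟨m, hm⟩ := nil_nilpotent N hN2 hNnil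
  obtain ⟨w, hw, hwI⟩ := hIw m
  apply hwI
  rw [← hq0]
  let Y : Fin 2 → S := fun i => ⟨X i, hXS ⟨i, rfl⟩⟩
  have hYN : ∀ i, Y i ∈ N := by
    intro i
    rw [RingHom.mem_ker]
    show ε (q (single (FreeMonoid.of i) (1 : ℚ))) = 0
    rw [hε, aug_apply]
    simp [FreeMonoid.of_ne_one]
  have hprod := hm (w.toList.map Y) (by
    intro s hs
    obtain ⟨i, _, rfl⟩ := List.mem_map.mp hs
    exact hYN i) (by
    rw [List.length_map]
    exact hw)
  have hw2 : ∀ w : FreeMonoid (Fin 2), q (single w (1 : ℚ)) =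
      (((w.toList.map Y).prod : S) : T ℚ ⧸ I) := by
    intro w
    induction w using FreeMonoid.recOn with
    | one =>
      show q 1 = _
      simp
    | of_mul x xs ih =>
      have h1 : (single (FreeMonoid.of x * xs) (1 : ℚ) : T ℚ) = single (FreeMonoid.of x) 1 * single xs 1 := by
        rw [single_mul_single, one_mul]
      rw [h1, map_mul, ih, FreeMonoid.toList_of_mul, List.map_cons, List.prod_cons]
      rfl
  rw [hw2, hprod]
  rfl

end Pool.Agent.Results.MP_42b5d3_al.GolodExample
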